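import Pool.Agent.H8.Wui

namespace Pool.Agent.Results.MP_f51a03_co.Dense
open Pool.Agent.H8.Wui

/-- `G` has a weak unit interval representation for every labeling of its edges
(`true` = near, `false` = far). -/
def Total {V : Type} (G : SimpleGraph V) : Prop :=
  ∀ l : G.edgeSet → Bool, ∃ (I : V → ℝ) (t : ℝ), 0 < t ∧
    ∀ (u v : V) (h : G.Adj u v), |I u - I v| ≤ t ↔ l ⟨s(u, v), h⟩ = true

def R : Fin 7 ⊕ Fin 11 → Fin 7 ⊕ Fin 11 → Bool
  | .inl x, .inl y => x = 0 && y = 1
  | .inl x, .inr j => decide (∃ i, T j i = x)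
  | _, _ => false

def Gr : SimpleGraph (Fin 7 ⊕ Fin 11) := SimpleGraph.fromRel fun u v => R u v = true

instance : DecidableRel Gr.Adj := fun u v => by unfold Gr; infer_instance

lemma place (x : Fin 3 → ℝ) (b : Fin 3 → Prop) (d : Fin 3) (hb : b (d + 1) ↔ b (d + 2))
    (h0 : ∀ i, 0 ≤ x i ∧ x i ≤ 20)
    (h : (x d < x (d + 1) ∧ x d < x (d + 2)) ∨ (x (d + 1) < x d ∧ x (d + 2) < x d)) :
    ∃ v, ∀ i, |x i - v| ≤ 11 ↔ b i := by
  have all : ∀ P : Fin 3 → Prop, P d → P (d + 1) → P (d + 2) → ∀ i, P i := by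
    intro P; fin_cases d <;> intro a b c i <;> fin_cases i <;> assumption
  have a0 := h0 d
  have a1 := h0 (d + 1)
  have a2 := h0 (d + 2)
  have m1 := le_max_left (x (d + 1)) (x (d + 2))
  have m2 := le_max_right (x (d + 1)) (x (d + 2))
  have m3 := min_le_left (x (d + 1)) (x (d + 2))
  have m4 := min_le_right (x (d + 1)) (x (d + 2))
  by_cases p : b d <;> by_cases q : b (d + 1) <;> have r := q <;> rw [hb] at r
  · exact ⟨10, all _ (by simp [p, abs_le]; constructor <;> linarith)
      (by simp [q, abs_le]; constructor <;> linarith) (by simp [r, abs_le]; constructor <;> linarith)⟩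
  · rcases h with h | h
    · exact ⟨x d - 11, all _ (by simp [p]) (by simp [q, lt_abs]; left; linarith)
        (by simp [r, lt_abs]; left; linarith)⟩
    · exact ⟨x d + 11, all _ (by simp [p]) (by simp [q, lt_abs]; right; linarith)
        (by simp [r, lt_abs]; right; linarith)⟩
  · rcases h with h | h
    · have := lt_min h.1 h.2
      exact ⟨min (x (d + 1)) (x (d + 2)) + 11, all _
        (by simp only [p, iff_false, not_le, lt_abs]; right; linarith)
        (by simp only [q, iff_true, abs_le]; constructor <;> linarith)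
        (by simp only [r, iff_true, abs_le]; constructor <;> linarith)⟩
    · have := max_lt h.1 h.2
      exact ⟨max (x (d + 1)) (x (d + 2)) - 11, all _
        (by simp only [p, iff_false, not_le, lt_abs]; left; linarith)
        (by simp only [q, iff_true, abs_le]; constructor <;> linarith)
        (by simp only [r, iff_true, abs_le]; constructor <;> linarith)⟩
  · exact ⟨40, all _ (by simp [p, lt_abs]; right; linarith)
      (by simp [q, lt_abs]; right; linarith) (by simp [r, lt_abs]; right; linarith)⟩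

lemma total : Total Gr := by
  classical
  intro l
  let b : Sym2 (Fin 7 ⊕ Fin 11) → Prop := fun e => ∃ h : e ∈ Gr.edgeSet, l ⟨e, h⟩ = true
  have hd : ∀ j : Fin 11, ∃ d : Fin 3,
      b s(.inl (T j (d + 1)), .inr j) ↔ b s(.inl (T j (d + 2)), .inr j) := fun j => by
    by_contra! h
    have h0 := h 0; have h1 := h 1; have h2 := h 2
    simp only [show (0 + 1 : Fin 3) = 1 from rfl, show (0 + 2 : Fin 3) = 2 from rfl,
      show (1 + 1 : Fin 3) = 2 from rfl, show (1 + 2 : Fin 3) = 0 from rfl,
      show (2 + 1 : Fin 3) = 0 from rfl, show (2 + 2 : Fin 3) = 1 from rfl] at h0 h1 h2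
    tauto
  choose d hd using hd
  obtain ⟨c, h01, hc⟩ := cover d
  let f : ℕ → ℝ := fun n => n + if ¬ b s(.inl 0, .inl 1) ∧ pos c 0 < n then 12 else 0
  have mono : ∀ {m n}, m < n → f m < f n := fun {m n} h => by
    have : (m : ℝ) < n := by exact_mod_cast h
    simp only [f]
    split_ifs with h1 h2 <;> first | linarith | exact absurd ⟨h1.1, h1.2.trans h⟩ h2
  have p8 : ∀ x, (0 : ℝ) ≤ pos c x ∧ (pos c x : ℝ) ≤ 7 := fun x =>
    ⟨by positivity, by exact_mod_cast Nat.le_of_lt_succ (Nat.mod_lt _ (by norm_num))⟩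
  have bd : ∀ x, 0 ≤ f (pos c x) ∧ f (pos c x) ≤ 20 := fun x => by
    have := p8 x
    simp only [f]; split_ifs <;> constructor <;> linarith
  have := fun j => place (fun i => f (pos c (T j i))) (fun i => b s(.inl (T j i), .inr j)) (d j)
    (hd j) (fun i => bd _) (by
      have := hc j
      simp only [good, Bool.or_eq_true, Bool.and_eq_true, decide_eq_true_eq] at this
      exact this.imp (fun h => ⟨mono h.1, mono h.2⟩) fun h => ⟨mono h.1, mono h.2⟩)
  choose v hv using this
  have key : ∀ u w, R u w = true →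
      (|Sum.elim (fun x => f (pos c x)) v u - Sum.elim (fun x => f (pos c x)) v w| ≤ 11 ↔
        b s(u, w)) := by
    rintro (x | j) (y | k) h <;> simp only [R, Bool.and_eq_true, decide_eq_true_eq] at h
    · obtain ⟨rfl, rfl⟩ := h
      have a := p8 0; have a' := p8 1
      have : (pos c 0 : ℝ) < pos c 1 := by exact_mod_cast h01
      by_cases hb : b s(.inl 0, .inl 1)
      · simp [f, hb, abs_le]; constructor <;> linarith
      · simp [f, hb, h01, lt_abs]; right; linarith
    · obtain ⟨i, rfl⟩ := h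
      exact hv k i
    all_goals simp at h
  refine ⟨Sum.elim (fun x => f (pos c x)) v, 11, by norm_num, fun u w h => ?_⟩
  have e : b s(u, w) ↔ l ⟨s(u, w), h⟩ = true := ⟨fun ⟨_, h⟩ => h, fun h' => ⟨h, h'⟩⟩
  rw [← e]
  rcases ((SimpleGraph.fromRel_adj _ _ _).1 h).2 with h | h
  · exact key _ _ h
  · rw [abs_sub_comm, Sym2.eq_swap]; exact key _ _ h

theorem result : ∃ (V : Type) (_ : Fintype V) (G : SimpleGraph V),
    Total G ∧ Fintype.card V = 18 ∧ G.edgeSet.ncard = 34 := by
  refine ⟨_, inferInstance, Gr, total, rfl, ?_⟩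
  rw [← SimpleGraph.coe_edgeFinset, Set.ncard_coe_finset]
  decide +kernel

end Pool.Agent.Results.MP_f51a03_co.Dense
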